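import Mathlib

/-!
# The sum of the algebraic connectivities of a graph and its complement

`core`: if `x` is a nonconstant eigenvector of the Laplacian of a graph with eigenvalue `α < 1` and
`y` is one for the complement with eigenvalue `β < 1`, then `α + β ≥ 1`.

Proof. Let `p, q` be vertices where `x` is largest and smallest and `a, b` vertices where `y` is
largest and smallest. As `α < 1`, `p` and `q` are not adjacent and have no common neighbour; as
`β < 1`, `a` and `b` are adjacent and have no common non-neighbour. So (after a change of sign of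
`y`) `p ~ a ~ b ~ q` and there are no other edges among the four vertices. The four sets
`T = {j | j ≁ a, j ≁ p}`, `D = {j | j ≁ b, j ≁ q}`, `L = {j | j ~ q, j ~ a}`,
`R = {j | j ~ p, j ~ b}` are pairwise disjoint, and the eigenvector equations give lower bounds for
their sizes whose sum exceeds the number of vertices when `α + β < 1`.
-/

set_option autoImplicit false

namespace Pool.Agent.W6h19.Spread

open Finset

section core

variable {V : Type} [Fintype V] [DecidableEq V]

/-- The counting lemma. -/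
theorem count (E : V → V → Prop) [DecidableRel E] (x : V → ℝ) (α : ℝ)
    (hα0 : 0 ≤ α) (hα1 : α < 1) (hx0 : ∑ i, x i = 0)
    (hirr : ∀ i, ¬ E i i)
    (hx : ∀ i, ∑ j ∈ univ.filter (E i), (x i - x j) = α * x i)
    (p a : V) (l : ℝ) (hp : ∀ j, x j ≤ x p) (hl : ∀ j, -l ≤ x j) (hr0 : 0 < x p) (hl0 : 0 < l)
    (hpa : E p a) :
    ((Fintype.card V : ℝ) - α) * ((1 - α) * x p) ≤
      ((univ.filter (fun j => j ≠ a ∧ ¬ E a j ∧ ¬ E p j)).card : ℝ) * ((1 - α) * x p + l) := by
  set r := x p with hr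
  set s := x a with hs
  set T := univ.filter (fun j => j ≠ a ∧ ¬ E a j ∧ ¬ E p j) with hT
  set T2 := univ.filter (fun j => j ≠ a ∧ ¬ E a j ∧ E p j) with hT2
  set N : ℝ := (Fintype.card V : ℝ) with hN
  -- the sum over all vertices
  have hall : ∑ j, (s - x j) = N * s := by
    rw [sum_sub_distrib, hx0, sum_const, card_univ, nsmul_eq_mul, sub_zero]
  have hsplit : ∑ j, (s - x j) = ∑ j ∈ univ.filter (E a), (s - x j) +
      (∑ j ∈ T, (s - x j) + ∑ j ∈ T2, (s - x j)) := by
    rw [← sum_filter_add_sum_filter_not univ (E a)]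
    congr 1
    have h1 : ∑ j ∈ univ.filter (fun j => ¬ E a j), (s - x j) =
        ∑ j ∈ univ.filter (fun j => j ≠ a ∧ ¬ E a j), (s - x j) := by
      symm
      apply sum_subset
      · intro j hj
        simp only [mem_filter, mem_univ, true_and] at hj ⊢
        exact hj.2
      · intro j hj hj2
        simp only [mem_filter, mem_univ, true_and, not_and, not_not] at hj hj2
        by_cases h : j = a
        · rw [h]; ring
        · exact absurd (hj2 h) hj
    rw [h1, ← sum_filter_add_sum_filter_not (univ.filter (fun j => j ≠ a ∧ ¬ E a j))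
      (fun j => ¬ E p j)]
    congr 1
    · apply sum_congr _ (fun _ _ => rfl)
      ext j
      simp [hT, and_assoc]
    · apply sum_congr _ (fun _ _ => rfl)
      ext j
      simp [hT2, and_assoc]
  have hea := hx a
  -- the sum over the neighbours of p
  have hep := hx p
  have hpe : ∑ j ∈ univ.filter (E p), (r - x j) = (r - s) +
      ∑ j ∈ (univ.filter (E p)).erase a, (r - x j) := by
    rw [add_comm, sum_erase_add]
    simp [hpa]
  have hT2le : ∑ j ∈ T2, (s - x j) ≤ ∑ j ∈ (univ.filter (E p)).erase a, (r - x j) := by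
    have hsub : T2 ⊆ (univ.filter (E p)).erase a := by
      intro j hj
      simp only [hT2, mem_filter, mem_univ, true_and, mem_erase] at hj ⊢
      exact ⟨hj.1, hj.2.2⟩
    calc ∑ j ∈ T2, (s - x j) ≤ ∑ j ∈ T2, (r - x j) :=
          sum_le_sum (fun j _ => by have := hp a; linarith)
      _ ≤ ∑ j ∈ (univ.filter (E p)).erase a, (r - x j) :=
          sum_le_sum_of_subset_of_nonneg hsub (fun j _ _ => by have := hp j; linarith)
  have hT2le' : ∑ j ∈ T2, (s - x j) ≤ s - (1 - α) * r := by
    have : ∑ j ∈ (univ.filter (E p)).erase a, (r - x j) = α * r - (r - s) := by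
      rw [← hep, hpe]; ring
    rw [this] at hT2le
    linarith
  have hrest0 : 0 ≤ ∑ j ∈ (univ.filter (E p)).erase a, (r - x j) :=
    sum_nonneg (fun j _ => by have := hp j; linarith)
  have hs1 : (1 - α) * r ≤ s := by
    have : r - s ≤ α * r := by
      rw [← hep, hpe]; linarith
    linarith
  have hTle : ∑ j ∈ T, (s - x j) ≤ (T.card : ℝ) * (s + l) := by
    calc ∑ j ∈ T, (s - x j) ≤ ∑ _j ∈ T, (s + l) :=
          sum_le_sum (fun j _ => by have := hl j; linarith)
      _ = (T.card : ℝ) * (s + l) := by rw [sum_const, nsmul_eq_mul]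
  -- r ≤ (n-1) l
  have hrl : r ≤ (N - 1) * l := by
    have h1 : ∑ j ∈ univ.erase p, x j + x p = 0 := by
      rw [sum_erase_add _ _ (mem_univ p), hx0]
    have h2 : ∑ _j ∈ univ.erase p, (-l) ≤ ∑ j ∈ univ.erase p, x j :=
      sum_le_sum (fun j _ => hl j)
    rw [sum_const, nsmul_eq_mul, card_erase_of_mem (mem_univ p), card_univ] at h2
    have h3 : ((Fintype.card V - 1 : ℕ) : ℝ) = N - 1 := by
      have : 1 ≤ Fintype.card V := Fintype.card_pos_iff.mpr ⟨p⟩
      push_cast [Nat.cast_sub this]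
      rfl
    rw [h3] at h2
    linarith
  have hpane : p ≠ a := fun h => hirr a (h ▸ hpa)
  have hN2 : 2 ≤ N := by
    have : 2 ≤ Fintype.card V := by
      have h1 := card_le_univ ({p, a} : Finset V)
      rwa [card_pair hpane] at h1
    rw [hN]; exact_mod_cast this
  have key : (N - α - 1) * s + (1 - α) * r ≤ (T.card : ℝ) * (s + l) := by
    have : N * s = α * s + (∑ j ∈ T, (s - x j) + ∑ j ∈ T2, (s - x j)) := by
      rw [← hall, hsplit, hea]
    nlinarith
  set ρ := (1 - α) * r with hρ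
  have hρ0 : 0 < ρ := mul_pos (by linarith) hr0
  have hρl : ρ ≤ (N - α - 1) * l := by
    have h1 : ρ ≤ (1 - α) * ((N - 1) * l) := mul_le_mul_of_nonneg_left hrl (by linarith)
    have h2 : (1 - α) * ((N - 1) * l) ≤ (N - α - 1) * l := by
      have : 0 ≤ α * (N - 2) * l := mul_nonneg (mul_nonneg hα0 (by linarith)) hl0.le
      nlinarith
    linarith
  have hfin : (N - α) * ρ * (s + l) ≤ ((N - α - 1) * s + ρ) * (ρ + l) := by
    have h1 : 0 ≤ (s - ρ) * ((N - α - 1) * l - ρ) := mul_nonneg (by linarith) (by linarith)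
    nlinarith
  have h4 : (N - α) * ρ * (s + l) ≤ (T.card : ℝ) * (ρ + l) * (s + l) := by
    calc (N - α) * ρ * (s + l) ≤ ((N - α - 1) * s + ρ) * (ρ + l) := hfin
      _ ≤ ((T.card : ℝ) * (s + l)) * (ρ + l) := mul_le_mul_of_nonneg_right key (by linarith)
      _ = (T.card : ℝ) * (ρ + l) * (s + l) := by ring
  exact le_of_mul_le_mul_right h4 (by linarith)

omit [DecidableEq V] in
/-- If `α < 1`, the vertices where an eigenvector is largest and smallest are not adjacent and have
no common neighbour. -/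
theorem far (E : V → V → Prop) [DecidableRel E] (x : V → ℝ) (α : ℝ) (hα1 : α < 1)
    (hx : ∀ i, ∑ j ∈ univ.filter (E i), (x i - x j) = α * x i)
    (hsymm : ∀ i j, E i j → E j i)
    (p q : V) (hp : ∀ j, x j ≤ x p) (hq : ∀ j, x q ≤ x j) (hpq : x q < x p) :
    ¬ E p q ∧ ∀ j, ¬ (E p j ∧ E q j) := by
  have h1 := hx p
  have h2 := hx q
  have h2' : ∑ j ∈ univ.filter (E q), (x j - x q) = - (α * x q) := by
    rw [← h2, ← sum_neg_distrib]
    exact sum_congr rfl (fun j _ => by ring)
  have g1 : ∀ j, E p j → x p - x j ≤ α * x p := by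
    intro j hj
    rw [← h1]
    exact single_le_sum (f := fun j => x p - x j) (fun i _ => by have := hp i; linarith)
      (by simp [hj])
  have g2 : ∀ j, E q j → x j - x q ≤ - (α * x q) := by
    intro j hj
    rw [← h2']
    exact single_le_sum (f := fun j => x j - x q) (fun i _ => by have := hq i; linarith)
      (by simp [hj])
  constructor
  · intro h
    have e1 := g1 q h
    have e2 := g2 p (hsymm _ _ h)
    nlinarith
  · rintro j ⟨hj1, hj2⟩
    have e1 := g1 j hj1
    have e2 := g2 j hj2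
    nlinarith

theorem ratio (A r l : ℝ) (hA0 : 0 < A) (hA1 : A ≤ 1) (hr : 0 < r) (hl : 0 < l) :
    2 * A / (1 + A) ≤ A * r / (A * r + l) + A * l / (A * l + r) := by
  have h1 : 0 < A * r + l := by positivity
  have h2 : 0 < A * l + r := by positivity
  rw [div_add_div _ _ h1.ne' h2.ne', div_le_div_iff₀ (by linarith) (by positivity)]
  have : A * r * (A * l + r) + (A * r + l) * (A * l) = A * (r ^ 2 + l ^ 2 + 2 * A * r * l) := by ring
  rw [this]
  have e : A * (r ^ 2 + l ^ 2 + 2 * A * r * l) * (1 + A) - 2 * A * ((A * r + l) * (A * l + r)) =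
      A * (1 - A) * (r - l) ^ 2 := by ring
  have e2 : 0 ≤ A * (1 - A) * (r - l) ^ 2 := by
    have : 0 ≤ 1 - A := by linarith
    positivity
  linarith

/-- The final numerical inequality. -/
theorem numeric (N A B : ℝ) (hN : 2 ≤ N) (hA0 : 0 < A) (hB0 : 0 < B)
    (hAB : 1 < A + B) :
    N < (N - 1 + A) * (2 * A / (1 + A)) + (N - 1 + B) * (2 * B / (1 + B)) := by
  have h1 : (0:ℝ) < 1 + A := by linarith
  have h2 : (0:ℝ) < 1 + B := by linarith
  have e1 : (N - 1 + A) * (2 * A / (1 + A)) = (N - 2) * (2 * A / (1 + A)) + 2 * A := by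
    field_simp
    ring
  have e2 : (N - 1 + B) * (2 * B / (1 + B)) = (N - 2) * (2 * B / (1 + B)) + 2 * B := by
    field_simp
    ring
  rw [e1, e2]
  have e3 : 1 ≤ 2 * A / (1 + A) + 2 * B / (1 + B) := by
    rw [div_add_div _ _ h1.ne' h2.ne', le_div_iff₀ (by positivity)]
    nlinarith [mul_pos hA0 hB0]
  nlinarith

/-- The oriented form. -/
theorem oriented (E : V → V → Prop) [DecidableRel E]
    (hsymm : ∀ i j, E i j → E j i) (hirr : ∀ i, ¬ E i i)
    (x y : V → ℝ) (α β : ℝ)
    (hα0 : 0 ≤ α) (hα1 : α < 1) (hβ0 : 0 ≤ β) (hβ1 : β < 1)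
    (hx0 : ∑ i, x i = 0) (hy0 : ∑ i, y i = 0)
    (hx : ∀ i, ∑ j ∈ univ.filter (E i), (x i - x j) = α * x i)
    (hy : ∀ i, ∑ j ∈ univ.filter (fun j => j ≠ i ∧ ¬ E i j), (y i - y j) = β * y i)
    (p q a b : V) (hp : ∀ j, x j ≤ x p) (hq : ∀ j, x q ≤ x j)
    (ha : ∀ j, y j ≤ y a) (hb : ∀ j, y b ≤ y j)
    (hp0 : 0 < x p) (hq0 : x q < 0) (ha0 : 0 < y a) (hb0 : y b < 0)
    (hpq : ¬ E p q) (hpq' : ∀ j, ¬ (E p j ∧ E q j))
    (hab' : ∀ j, j ≠ a → j ≠ b → E a j ∨ E b j)
    (hpa : E p a) (hqb : E q b) : 1 ≤ α + β := by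
  classical
  by_contra hcon
  push Not at hcon
  set A := 1 - α with hA
  set B := 1 - β with hB
  have hA0 : 0 < A := by linarith
  have hA1 : A ≤ 1 := by linarith
  have hB0 : 0 < B := by linarith
  have hB1 : B ≤ 1 := by linarith
  set N : ℝ := (Fintype.card V : ℝ) with hN
  set C : V → V → Prop := fun i j => j ≠ i ∧ ¬ E i j with hC
  have hCirr : ∀ i, ¬ C i i := fun i h => h.1 rfl
  have haq : C a q := ⟨fun h => hpq (h ▸ hpa), fun h => hpq' a ⟨hpa, hsymm _ _ h⟩⟩
  have hbp : C b p := ⟨fun h => hpq (h ▸ hsymm _ _ hqb), fun h => hpq' b ⟨hsymm _ _ h, hqb⟩⟩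
  -- the four counts
  have c1 := count E x α hα0 hα1 hx0 hirr hx p a (- x q) hp (fun j => by have := hq j; linarith)
    hp0 (by linarith) hpa
  have c2 := count E (fun j => - x j) α hα0 hα1 (by rw [sum_neg_distrib, hx0, neg_zero]) hirr
    (fun i => by
      rw [mul_neg, ← hx i, ← sum_neg_distrib]
      exact sum_congr rfl (fun j _ => by ring))
    q b (x p) (fun j => by have := hq j; linarith)
    (fun j => by have := hp j; linarith) (by linarith) hp0 hqb
  have c3 := count C y β hβ0 hβ1 hy0 hCirr hy a q (- y b) ha (fun j => by have := hb j; linarith)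
    ha0 (by linarith) haq
  have c4 := count C (fun j => - y j) β hβ0 hβ1 (by rw [sum_neg_distrib, hy0, neg_zero]) hCirr
    (fun i => by
      rw [mul_neg, ← hy i, ← sum_neg_distrib]
      exact sum_congr rfl (fun j _ => by ring))
    b p (y a) (fun j => by have := hb j; linarith)
    (fun j => by have := ha j; linarith) (by linarith) ha0 hbp
  set S1 := univ.filter (fun j => j ≠ a ∧ ¬ E a j ∧ ¬ E p j) with hS1
  set S2 := univ.filter (fun j => j ≠ b ∧ ¬ E b j ∧ ¬ E q j) with hS2
  set S3 := univ.filter (fun j => j ≠ q ∧ ¬ C q j ∧ ¬ C a j) with hS3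
  set S4 := univ.filter (fun j => j ≠ p ∧ ¬ C p j ∧ ¬ C b j) with hS4
  have m3 : ∀ j, j ∈ S3 → E q j ∧ (j = a ∨ E a j) := by
    intro j hj
    simp only [hS3, hC, mem_filter, mem_univ, true_and, not_and, not_not] at hj
    exact ⟨hj.2.1 hj.1, by by_cases h : j = a; exact Or.inl h; exact Or.inr (hj.2.2 h)⟩
  have m4 : ∀ j, j ∈ S4 → E p j ∧ (j = b ∨ E b j) := by
    intro j hj
    simp only [hS4, hC, mem_filter, mem_univ, true_and, not_and, not_not] at hj
    exact ⟨hj.2.1 hj.1, by by_cases h : j = b; exact Or.inl h; exact Or.inr (hj.2.2 h)⟩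
  have m1 : ∀ j, j ∈ S1 → j ≠ a ∧ ¬ E a j ∧ ¬ E p j := by
    intro j hj
    simpa [hS1] using hj
  have m2 : ∀ j, j ∈ S2 → j ≠ b ∧ ¬ E b j ∧ ¬ E q j := by
    intro j hj
    simpa [hS2] using hj
  have d12 : Disjoint S1 S2 := disjoint_left.mpr (fun j h1 h2 => by
    rcases hab' j (m1 j h1).1 (m2 j h2).1 with h | h
    · exact (m1 j h1).2.1 h
    · exact (m2 j h2).2.1 h)
  have d34 : Disjoint S3 S4 := disjoint_left.mpr (fun j h1 h2 =>
    hpq' j ⟨(m4 j h2).1, (m3 j h1).1⟩)
  have d1234 : Disjoint (S1 ∪ S2) (S3 ∪ S4) := by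
    rw [disjoint_left]
    intro j h1 h2
    rw [mem_union] at h1 h2
    rcases h1 with h1 | h1 <;> rcases h2 with h2 | h2
    · rcases (m3 j h2).2 with h | h
      · exact (m1 j h1).1 h
      · exact (m1 j h1).2.1 h
    · exact (m1 j h1).2.2 (m4 j h2).1
    · exact (m2 j h1).2.2 (m3 j h2).1
    · rcases (m4 j h2).2 with h | h
      · exact (m2 j h1).1 h
      · exact (m2 j h1).2.1 h
  have hcard : (S1.card : ℝ) + S2.card + (S3.card + S4.card) ≤ N := by
    have : S1.card + S2.card + (S3.card + S4.card) ≤ Fintype.card V := by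
      rw [← card_union_of_disjoint d12, ← card_union_of_disjoint d34,
        ← card_union_of_disjoint d1234]
      exact card_le_univ _
    rw [hN]
    exact_mod_cast this
  have hN2 : 2 ≤ N := by
    have hpane : p ≠ a := fun h => hirr a (h ▸ hpa)
    have : 2 ≤ Fintype.card V := by
      have h1 := card_le_univ ({p, a} : Finset V)
      rwa [card_pair hpane] at h1
    rw [hN]; exact_mod_cast this
  -- divide
  have e1 : (N - 1 + A) * (A * x p / (A * x p + - x q)) ≤ S1.card := by
    rw [mul_div_assoc', div_le_iff₀ (by have := mul_pos hA0 hp0; linarith)]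
    have : N - 1 + A = N - α := by rw [hA]; ring
    rw [this]
    exact c1
  have e2 : (N - 1 + A) * (A * (- x q) / (A * (- x q) + x p)) ≤ S2.card := by
    rw [mul_div_assoc', div_le_iff₀ (by
      have := mul_pos hA0 (show 0 < - x q by linarith); linarith)]
    have : N - 1 + A = N - α := by rw [hA]; ring
    rw [this]
    exact c2
  have e3 : (N - 1 + B) * (B * y a / (B * y a + - y b)) ≤ S3.card := by
    rw [mul_div_assoc', div_le_iff₀ (by have := mul_pos hB0 ha0; linarith)]
    have : N - 1 + B = N - β := by rw [hB]; ring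
    rw [this]
    exact c3
  have e4 : (N - 1 + B) * (B * (- y b) / (B * (- y b) + y a)) ≤ S4.card := by
    rw [mul_div_assoc', div_le_iff₀ (by
      have := mul_pos hB0 (show 0 < - y b by linarith); linarith)]
    have : N - 1 + B = N - β := by rw [hB]; ring
    rw [this]
    exact c4
  have f1 := ratio A (x p) (- x q) hA0 hA1 hp0 (by linarith)
  have f2 := ratio B (y a) (- y b) hB0 hB1 ha0 (by linarith)
  have g1 := mul_le_mul_of_nonneg_left f1 (show 0 ≤ N - 1 + A by linarith)
  have g2 := mul_le_mul_of_nonneg_left f2 (show 0 ≤ N - 1 + B by linarith)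
  have h := numeric N A B hN2 hA0 hB0 (by linarith)
  rw [mul_add] at g1 g2
  linarith

/-- For nonconstant eigenvectors of the Laplacians of a graph and of its complement the sum of the
eigenvalues is at least one. -/
theorem core (E : V → V → Prop) [DecidableRel E]
    (hsymm : ∀ i j, E i j → E j i) (hirr : ∀ i, ¬ E i i)
    (x y : V → ℝ) (α β : ℝ) (hα0 : 0 ≤ α) (hβ0 : 0 ≤ β)
    (hx0 : ∑ i, x i = 0) (hy0 : ∑ i, y i = 0) (hxne : x ≠ 0) (hyne : y ≠ 0)
    (hx : ∀ i, ∑ j ∈ univ.filter (E i), (x i - x j) = α * x i)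
    (hy : ∀ i, ∑ j ∈ univ.filter (fun j => j ≠ i ∧ ¬ E i j), (y i - y j) = β * y i) :
    1 ≤ α + β := by
  classical
  by_cases hα1 : 1 ≤ α
  · linarith
  by_cases hβ1 : 1 ≤ β
  · linarith
  push Not at hα1 hβ1
  have hne : Nonempty V := by
    obtain ⟨i, _⟩ := Function.ne_iff.mp hxne
    exact ⟨i⟩
  -- extreme vertices
  have ext : ∀ z : V → ℝ, ∑ i, z i = 0 → z ≠ 0 → ∃ p q, (∀ j, z j ≤ z p) ∧ (∀ j, z q ≤ z j) ∧
      0 < z p ∧ z q < 0 := by
    intro z hz0 hzne
    obtain ⟨p, hp⟩ := Finite.exists_max z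
    obtain ⟨q, hq⟩ := Finite.exists_min z
    refine ⟨p, q, hp, hq, ?_, ?_⟩
    · by_contra h
      push Not at h
      apply hzne
      funext i
      have h1 : ∀ j ∈ univ, z j ≤ 0 := fun j _ => (hp j).trans h
      exact (sum_eq_zero_iff_of_nonpos h1).mp hz0 i (mem_univ i)
    · by_contra h
      push Not at h
      apply hzne
      funext i
      have h1 : ∀ j ∈ univ, 0 ≤ z j := fun j _ => h.trans (hq j)
      exact (sum_eq_zero_iff_of_nonneg h1).mp hz0 i (mem_univ i)
  obtain ⟨p, q, hp, hq, hp0, hq0⟩ := ext x hx0 hxne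
  obtain ⟨a, b, ha, hb, ha0, hb0⟩ := ext y hy0 hyne
  set C : V → V → Prop := fun i j => j ≠ i ∧ ¬ E i j with hC
  have hCsymm : ∀ i j, C i j → C j i := fun i j h => ⟨h.1.symm, fun h' => h.2 (hsymm _ _ h')⟩
  obtain ⟨hpq, hpq'⟩ := far E x α hα1 hx hsymm p q hp hq (by linarith)
  obtain ⟨hab, hab'⟩ := far C y β hβ1 hy hCsymm a b ha hb (by linarith)
  have hane : a ≠ b := by rintro rfl; linarith
  have hpne : p ≠ q := by rintro rfl; linarith
  have hEab : E a b := by
    by_contra h
    exact hab ⟨hane.symm, h⟩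
  have hdom : ∀ j, j ≠ a → j ≠ b → E a j ∨ E b j := by
    intro j h1 h2
    by_contra h
    push Not at h
    exact hab' j ⟨⟨h1, h.1⟩, ⟨h2, h.2⟩⟩
  -- the four vertices are distinct
  have key : ∀ (p q a b : V), ¬ E p q → (∀ j, ¬ (E p j ∧ E q j)) → p ≠ q → E a b →
      (∀ j, j ≠ a → j ≠ b → E a j ∨ E b j) → p ≠ a := by
    intro p q a b hpq hpq' hne hEab hdom h
    subst h
    by_cases hqb : q = b
    · subst hqb; exact hpq hEab
    · rcases hdom q hne.symm hqb with h | h
      · exact hpq h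
      · exact hpq' b ⟨hEab, hsymm _ _ h⟩
  have hpa := key p q a b hpq hpq' hpne hEab hdom
  have hpb := key p q b a hpq hpq' hpne (hsymm _ _ hEab) (fun j h1 h2 => (hdom j h2 h1).symm)
  have hqa := key q p a b (fun h => hpq (hsymm _ _ h)) (fun j h => hpq' j ⟨h.2, h.1⟩) hpne.symm
    hEab hdom
  have hqb := key q p b a (fun h => hpq (hsymm _ _ h)) (fun j h => hpq' j ⟨h.2, h.1⟩) hpne.symm
    (hsymm _ _ hEab) (fun j h1 h2 => (hdom j h2 h1).symm)
  rcases hdom p hpa hpb with h1 | h1
  · -- p ~ a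
    have h2 : E q b := by
      rcases hdom q hqa hqb with h | h
      · exact absurd ⟨hsymm _ _ h1, hsymm _ _ h⟩ (hpq' a)
      · exact hsymm _ _ h
    exact oriented E hsymm hirr x y α β hα0 hα1 hβ0 hβ1 hx0 hy0 hx hy p q a b hp hq ha hb
      hp0 hq0 ha0 hb0 hpq hpq' hdom (hsymm _ _ h1) h2
  · -- p ~ b
    have h2 : E q a := by
      rcases hdom q hqa hqb with h | h
      · exact hsymm _ _ h
      · exact absurd ⟨hsymm _ _ h1, hsymm _ _ h⟩ (hpq' b)
    exact oriented E hsymm hirr x (fun j => - y j) α β hα0 hα1 hβ0 hβ1 hx0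
      (by rw [sum_neg_distrib, hy0, neg_zero]) hx
      (fun i => by
        rw [mul_neg, ← hy i, ← sum_neg_distrib]
        exact sum_congr rfl (fun j _ => by ring))
      p q b a hp hq (fun j => by have := hb j; linarith)
      (fun j => by have := ha j; linarith) hp0 hq0 (by linarith)
      (by linarith) hpq hpq' (fun j h1 h2 => (hdom j h2 h1).symm)
      (hsymm _ _ h1) h2

end core

section spectral

variable {n : ℕ}

/-- Twice the Laplacian quadratic form. -/
noncomputable def Q (w : Fin n → Fin n → ℝ) (z : Fin n → ℝ) : ℝ :=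
  ∑ i, ∑ j, w i j * (z i - z j) ^ 2

/-- The bilinear form of `Q`. -/
noncomputable def B (w : Fin n → Fin n → ℝ) (z h : Fin n → ℝ) : ℝ :=
  ∑ i, ∑ j, w i j * ((z i - z j) * (h i - h j))

theorem Q_add (w : Fin n → Fin n → ℝ) (z h : Fin n → ℝ) (ε : ℝ) :
    Q w (fun i => z i + ε * h i) = Q w z + 2 * ε * B w z h + ε ^ 2 * Q w h := by
  unfold Q B
  rw [mul_sum, mul_sum, ← sum_add_distrib, ← sum_add_distrib]
  refine sum_congr rfl (fun i _ => ?_)
  rw [mul_sum, mul_sum, ← sum_add_distrib, ← sum_add_distrib]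
  exact sum_congr rfl (fun j _ => by ring)

theorem Q_smul (w : Fin n → Fin n → ℝ) (z : Fin n → ℝ) (c : ℝ) :
    Q w (fun i => c * z i) = c ^ 2 * Q w z := by
  unfold Q
  rw [mul_sum]
  refine sum_congr rfl (fun i _ => ?_)
  rw [mul_sum]
  exact sum_congr rfl (fun j _ => by ring)

theorem Q_nonneg (w : Fin n → Fin n → ℝ) (h0 : ∀ i j, 0 ≤ w i j) (z : Fin n → ℝ) : 0 ≤ Q w z :=
  sum_nonneg (fun i _ => sum_nonneg (fun j _ => mul_nonneg (h0 i j) (sq_nonneg _)))

theorem B_delta (w : Fin n → Fin n → ℝ) (hs : ∀ i j, w i j = w j i) (z : Fin n → ℝ) (k : Fin n)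
    (c : ℝ) :
    B w z (fun i => (if i = k then 1 else 0) - c) = 2 * ∑ j, w k j * (z k - z j) := by
  unfold B
  have h1 : ∀ i j : Fin n, w i j * ((z i - z j) * (((if i = k then (1:ℝ) else 0) - c) -
      ((if j = k then 1 else 0) - c))) =
      (if i = k then w i j * (z i - z j) else 0) - (if j = k then w i j * (z i - z j) else 0) := by
    intro i j
    split_ifs <;> ring
  simp only [h1, sum_sub_distrib, sum_ite_eq', mem_univ, if_true]
  have h2 : ∑ i, ∑ j, (if i = k then w i j * (z i - z j) else 0) = ∑ j, w k j * (z k - z j) := by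
    rw [sum_comm]
    simp
  rw [h2, two_mul, sub_eq_add_neg]
  congr 1
  rw [← sum_neg_distrib]
  exact sum_congr rfl (fun j _ => by rw [hs j k]; ring)

/-- A nonconstant eigenvector of the Laplacian for the second smallest eigenvalue. -/
theorem exists_eigen (hn : 2 ≤ n) (w : Fin n → Fin n → ℝ) (hs : ∀ i j, w i j = w j i)
    (h0 : ∀ i j, 0 ≤ w i j) :
    ∃ (x : Fin n → ℝ) (α : ℝ), ∑ i, x i = 0 ∧ x ≠ 0 ∧ 0 ≤ α ∧
      (∀ i, ∑ j, w i j * (x i - x j) = α * x i) ∧
      ∀ z : Fin n → ℝ, ∑ i, z i = 0 → 2 * α * ∑ i, z i ^ 2 ≤ Q w z := by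
  set K : Set (Fin n → ℝ) := {z | ∑ i, z i = 0 ∧ ∑ i, z i ^ 2 = 1} with hK
  have hcl : IsClosed K := by
    apply IsClosed.inter
    · exact isClosed_eq (by fun_prop) continuous_const
    · exact isClosed_eq (by fun_prop) continuous_const
  have hbd : K ⊆ Metric.closedBall 0 1 := by
    intro z hz
    rw [mem_closedBall_zero_iff, pi_norm_le_iff_of_nonneg zero_le_one]
    intro i
    rw [Real.norm_eq_abs]
    have h1 : z i ^ 2 ≤ 1 := by
      rw [← hz.2]
      exact single_le_sum (f := fun i => z i ^ 2) (fun j _ => sq_nonneg _) (mem_univ i)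
    exact abs_le_one_iff_mul_self_le_one.mpr (by nlinarith)
  have hcomp : IsCompact K := (isCompact_closedBall (0 : Fin n → ℝ) 1).of_isClosed_subset hcl hbd
  have hne : K.Nonempty := by
    have hn0 : 0 < n := by omega
    have hn1 : 1 < n := by omega
    refine ⟨fun i => (if i = ⟨0, hn0⟩ then √(1/2) else 0) - (if i = ⟨1, hn1⟩ then √(1/2) else 0), ?_, ?_⟩
    · rw [sum_sub_distrib]; simp
    · have h1 : ∀ i : Fin n, ((if i = ⟨0, hn0⟩ then √(1/2) else 0) -
          (if i = ⟨1, hn1⟩ then √(1/2) else 0)) ^ 2 =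
          (if i = ⟨0, hn0⟩ then (1/2 : ℝ) else 0) + (if i = ⟨1, hn1⟩ then (1/2 : ℝ) else 0) := by
        intro i
        have h2 : √(1/2 : ℝ) ^ 2 = 1 / 2 := Real.sq_sqrt (by norm_num)
        by_cases ha : i = ⟨0, hn0⟩
        · have hb : i ≠ ⟨1, hn1⟩ := by rw [ha]; simp [Fin.ext_iff]
          rw [if_pos ha, if_neg hb, if_pos ha, if_neg hb, sub_zero, add_zero, h2]
        · by_cases hb : i = ⟨1, hn1⟩
          · rw [if_neg ha, if_pos hb, if_neg ha, if_pos hb, zero_sub, neg_sq, h2, zero_add]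
          · rw [if_neg ha, if_neg hb, if_neg ha, if_neg hb]; norm_num
      simp only [h1, sum_add_distrib, sum_ite_eq', mem_univ, if_true]
      norm_num
  have hcont : Continuous (Q w) := by
    unfold Q
    fun_prop
  obtain ⟨x, hxK, hmin⟩ := hcomp.exists_isMinOn hne hcont.continuousOn
  have hmin' : ∀ z : Fin n → ℝ, ∑ i, z i = 0 → Q w x * ∑ i, z i ^ 2 ≤ Q w z := by
    intro z hz
    by_cases hzz : ∑ i, z i ^ 2 = 0
    · rw [hzz, mul_zero]; exact Q_nonneg w h0 z
    · have hpos : 0 < ∑ i, z i ^ 2 :=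
        lt_of_le_of_ne (sum_nonneg (fun i _ => sq_nonneg _)) (Ne.symm hzz)
      set s := ∑ i, z i ^ 2 with hs'
      have hmem : (fun i => (√s)⁻¹ * z i) ∈ K := by
        refine ⟨?_, ?_⟩
        · simp only [← mul_sum, hz, mul_zero]
        · simp only [mul_pow, ← mul_sum, ← hs', inv_pow, Real.sq_sqrt hpos.le]
          exact inv_mul_cancel₀ hzz
      have h1 : Q w x ≤ Q w (fun i => (√s)⁻¹ * z i) := hmin hmem
      rw [Q_smul, inv_pow, Real.sq_sqrt hpos.le, ← div_eq_inv_mul, le_div_iff₀ hpos] at h1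
      exact h1
  refine ⟨x, Q w x / 2, hxK.1, ?_, div_nonneg (Q_nonneg w h0 x) zero_le_two, ?_, ?_⟩
  · rintro rfl
    have := hxK.2
    simp at this
  · intro k
    set m := Q w x with hm
    -- first order condition
    have hfo : ∀ h : Fin n → ℝ, ∑ i, h i = 0 → B w x h = m * ∑ i, x i * h i := by
      intro h hh
      have hall : ∀ ε : ℝ, 0 ≤ 2 * ε * (B w x h - m * ∑ i, x i * h i) +
          ε ^ 2 * (Q w h - m * ∑ i, h i ^ 2) := by
        intro ε
        have h1 := hmin' (fun i => x i + ε * h i) (by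
          rw [sum_add_distrib, ← mul_sum, hxK.1, hh]; ring)
        rw [Q_add] at h1
        have h2 : ∑ i, (x i + ε * h i) ^ 2 = 1 + 2 * ε * ∑ i, x i * h i + ε ^ 2 * ∑ i, h i ^ 2 := by
          rw [← hxK.2, mul_sum, mul_sum, ← sum_add_distrib, ← sum_add_distrib]
          exact sum_congr rfl (fun i _ => by ring)
        rw [h2] at h1
        nlinarith
      set b := B w x h - m * ∑ i, x i * h i with hb
      set c := Q w h - m * ∑ i, h i ^ 2 with hc
      have hb0 : b = 0 := by
        by_contra hbne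
        have hc0 : 0 < |c| + 1 := by positivity
        have h1 := hall (- b / (|c| + 1))
        have h2 : 2 * (- b / (|c| + 1)) * b + (- b / (|c| + 1)) ^ 2 * c =
            (b ^ 2 / (|c| + 1) ^ 2) * (c - 2 * (|c| + 1)) := by
          field_simp
          ring
        rw [h2] at h1
        have h3 : 0 < b ^ 2 / (|c| + 1) ^ 2 := by positivity
        have h4 : c - 2 * (|c| + 1) < 0 := by
          have := le_abs_self c
          have := abs_nonneg c
          linarith
        have := mul_neg_of_pos_of_neg h3 h4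
        linarith
      linarith
    have hn0 : (n : ℝ) ≠ 0 := by
      have : (0:ℝ) < n := by exact_mod_cast (by omega : 0 < n)
      exact this.ne'
    have h1 := hfo (fun i => (if i = k then 1 else 0) - 1 / (n : ℝ)) (by
      rw [sum_sub_distrib, sum_ite_eq' univ k, if_pos (mem_univ k), sum_const, card_univ,
        Fintype.card_fin, nsmul_eq_mul, mul_one_div_cancel hn0, sub_self])
    rw [B_delta w hs] at h1
    have h2 : ∑ i, x i * ((if i = k then (1:ℝ) else 0) - 1 / (n : ℝ)) = x k := by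
      simp only [mul_sub, sum_sub_distrib, mul_ite, mul_one, mul_zero, sum_ite_eq', mem_univ,
        if_true, ← sum_mul, hxK.1, zero_mul, sub_zero]
    rw [h2] at h1
    linarith
  · intro z hz
    have := hmin' z hz
    linarith

/-- **Laplacian spread inequality**, for simple graphs, in terms of Rayleigh quotients. -/
theorem simple (hn : 2 ≤ n) (E : Fin n → Fin n → Prop) [DecidableRel E]
    (hsymm : ∀ i j, E i j → E j i) (hirr : ∀ i, ¬ E i i)
    (x y : Fin n → ℝ) (hx0 : ∑ i, x i = 0) (hy0 : ∑ i, y i = 0) (hxne : x ≠ 0) (hyne : y ≠ 0) :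
    1 ≤ (∑ i, ∑ j, (if E i j then 1 else 0) * (x i - x j) ^ 2) / (2 * ∑ i, x i ^ 2)
      + (∑ i, ∑ j, (if E i j then 0 else 1) * (y i - y j) ^ 2) / (2 * ∑ i, y i ^ 2) := by
  classical
  obtain ⟨u, α, hu0, hune, hα0, hu, hα⟩ := exists_eigen hn (fun i j => if E i j then (1:ℝ) else 0)
    (fun i j => by
      by_cases h : E i j
      · simp [h, hsymm _ _ h]
      · have : ¬ E j i := fun h' => h (hsymm _ _ h')
        simp [h, this])
    (fun i j => by split_ifs <;> norm_num)
  obtain ⟨v, β, hv0, hvne, hβ0, hv, hβ⟩ := exists_eigen hn (fun i j => if E i j then (0:ℝ) else 1)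
    (fun i j => by
      by_cases h : E i j
      · simp [h, hsymm _ _ h]
      · have : ¬ E j i := fun h' => h (hsymm _ _ h')
        simp [h, this])
    (fun i j => by split_ifs <;> norm_num)
  have hcore := core E hsymm hirr u v α β hα0 hβ0 hu0 hv0 hune hvne
    (fun i => by
      rw [← hu i, sum_filter]
      exact sum_congr rfl (fun j _ => by split_ifs <;> ring))
    (fun i => by
      rw [← hv i, sum_filter]
      refine sum_congr rfl (fun j _ => ?_)
      by_cases h : j = i
      · simp [h]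
      · by_cases h' : E i j
        · simp [h, h']
        · simp [h, h'])
  have hpos : ∀ z : Fin n → ℝ, z ≠ 0 → 0 < ∑ i, z i ^ 2 := by
    intro z hz
    obtain ⟨i, hi⟩ := Function.ne_iff.mp hz
    exact sum_pos' (fun j _ => sq_nonneg _) ⟨i, mem_univ i, by
      have : z i ≠ 0 := hi
      positivity⟩
  have h1 := hα x hx0
  have h2 := hβ y hy0
  have px := hpos x hxne
  have py := hpos y hyne
  have e1 : α ≤ (∑ i, ∑ j, (if E i j then 1 else 0) * (x i - x j) ^ 2) / (2 * ∑ i, x i ^ 2) := by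
    rw [le_div_iff₀ (by positivity)]
    unfold Q at h1
    linarith
  have e2 : β ≤ (∑ i, ∑ j, (if E i j then 0 else 1) * (y i - y j) ^ 2) / (2 * ∑ i, y i ^ 2) := by
    rw [le_div_iff₀ (by positivity)]
    unfold Q at h2
    linarith
  linarith

/-- **Laplacian spread inequality** for weights in `[0,1]`. -/
theorem weighted (hn : 2 ≤ n) (w : Fin n → Fin n → ℝ) (_hs : ∀ i j, w i j = w j i)
    (h01 : ∀ i j, 0 ≤ w i j ∧ w i j ≤ 1)
    (x y : Fin n → ℝ) (hx0 : ∑ i, x i = 0) (hy0 : ∑ i, y i = 0) (hxne : x ≠ 0) (hyne : y ≠ 0) :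
    1 ≤ (∑ i, ∑ j, w i j * (x i - x j) ^ 2) / (2 * ∑ i, x i ^ 2)
      + (∑ i, ∑ j, (1 - w i j) * (y i - y j) ^ 2) / (2 * ∑ i, y i ^ 2) := by
  classical
  have hpos : ∀ z : Fin n → ℝ, z ≠ 0 → 0 < ∑ i, z i ^ 2 := by
    intro z hz
    obtain ⟨i, hi⟩ := Function.ne_iff.mp hz
    exact sum_pos' (fun j _ => sq_nonneg _) ⟨i, mem_univ i, by
      have : z i ≠ 0 := hi
      positivity⟩
  have px := hpos x hxne
  have py := hpos y hyne
  set X := 2 * ∑ i, x i ^ 2 with hX
  set Y := 2 * ∑ i, y i ^ 2 with hY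
  have hX0 : 0 < X := by positivity
  have hY0 : 0 < Y := by positivity
  set E : Fin n → Fin n → Prop := fun i j => (x i - x j) ^ 2 / X < (y i - y j) ^ 2 / Y with hE
  have hsymm : ∀ i j, E i j → E j i := by
    intro i j h
    simp only [hE] at h ⊢
    rw [show (x j - x i) ^ 2 = (x i - x j) ^ 2 by ring, show (y j - y i) ^ 2 = (y i - y j) ^ 2 by ring]
    exact h
  have hirr : ∀ i, ¬ E i i := by
    intro i h
    simp only [hE, sub_self] at h
    norm_num at h
  refine (simple hn E hsymm hirr x y hx0 hy0 hxne hyne).trans ?_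
  rw [← hX, ← hY, sum_div, sum_div, sum_div, sum_div, ← sum_add_distrib, ← sum_add_distrib]
  refine sum_le_sum (fun i _ => ?_)
  rw [sum_div, sum_div, sum_div, sum_div, ← sum_add_distrib, ← sum_add_distrib]
  refine sum_le_sum (fun j _ => ?_)
  obtain ⟨w0, w1⟩ := h01 i j
  have key : ∀ s t : ℝ, (if E i j then 1 else 0) * s / X + (if E i j then 0 else 1) * t / Y =
      if E i j then s / X else t / Y := by
    intro s t
    split_ifs <;> ring
  rw [key]
  have e : w i j * (x i - x j) ^ 2 / X + (1 - w i j) * (y i - y j) ^ 2 / Y =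
      w i j * ((x i - x j) ^ 2 / X) + (1 - w i j) * ((y i - y j) ^ 2 / Y) := by ring
  rw [e]
  split_ifs with h
  · have h' : (x i - x j) ^ 2 / X < (y i - y j) ^ 2 / Y := h
    nlinarith
  · have h' : (y i - y j) ^ 2 / Y ≤ (x i - x j) ^ 2 / X := not_lt.mp h
    nlinarith

end spectral

end Pool.Agent.W6h19.Spread
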